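import Pool.Agent.Run7.h283.AP.Eig
import Pool.Agent.Run7.h283.AP.Fin

set_option autoImplicit false

/-!
# Algebraic accessory parameters of any degree

Let `L_q = L_0 + q L_1 + ⋯ + q^(d-1) L_(d-1) + q^d r(x)`, where the `L_m` are arbitrary
differential operators of order at most `n` with coefficients in `ℤ[x]` and `r` is a polynomial; for
`d = 1` this is `L_0 + q r(x)`, an operator with an accessory parameter `q` (for `n = 2`: Heun's and
Lamé's equations and all their confluent forms).  We count the **algebraic numbers `q` of degree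
`D`** for which the reductions of `L_q` have a full basis of rational solutions (equivalently,
`p`-curvature zero) at *all* the primes above `p`, for unusually many prime numbers `p`.

The starting result `MP_aa40d3_nt.AccessoryParameterSieve` is about integers `q`: there the classes
modulo `p` with a full basis are sieved by Gallagher's larger sieve in `ℤ`.  Here a parameter is
given by its minimal polynomial `P` over `ℤ`, and its reductions at the primes above `p` are the
roots of `P` in an algebraic closure `k` of `F_p`.

* The eigenvalue argument works over `k(x)`: at most `d p / n` elements `t` of `k` (of all degrees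
  over `F_p` together) give an operator `L_t` with `n` solutions.
* If two different minimal polynomials `P`, `Q` have `m` common roots modulo `p`, then `p ^ m`
  divides their resultant, which is nonzero and at most `(2 D)! X ^ (2 D)`.  All the `D N` roots
  of `N` polynomials are in the same set with `d p / n` elements, so there are many common roots.
* Summing over the primes up to `X ^ θ` gives the bound.

For `N₀`, `K` fixed and `lam = 1` the theorem says: among the `≍ X ^ (D + 1)` minimal polynomials of
degree `D` with coefficients at most `X` all but `O(X ^ θ)`, for every `θ > 2 d / (n D)`, have a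
prime `p` above which some reduction of `L_q` has no full basis, and the sum of `log p / p` over
these `p` is larger than `K`.  In terms of the (Weil) height `H` of `q`, `X ≍ H ^ D`: the number of
exceptions is `O(H ^ (2 d / n + ε))` for all degrees `D`.

The operators `L_q` have coefficients in `ℚ(q)(x)`; the least common left multiple of the conjugates
of `L_q` is an operator over `ℚ(x)`, and for almost all `p` it has a full basis modulo `p` if and only
if the reductions of `L_q` at all primes above `p` have one (`D = 1`: `L_q` itself is over `ℚ(x)`).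
-/

namespace Pool.Agent.Results.MP_aa40d3_nt.AlgebraicParameters

open Polynomial Finset

/-- For `t` in a field `k`: the operator `L_t = ∑_{m < d} t^m L_m + t^d r` over `k(x)`, where
`L_m = ∑_{i ≤ n} b m i ∂^i`, has a full basis of rational solutions: `n` solutions in `k(x)` that are
linearly independent over the constants of `∂ = d/dx` (the `k`-derivation of `k(x)` with `∂ x = 1`). -/
def Full {k : Type} [Field k] (n : ℕ) {d : ℕ} (b : Fin d → Fin (n + 1) → ℤ[X]) (r : ℤ[X])
    (t : k) : Prop :=
  ∃ D : Derivation k (RatFunc k) (RatFunc k), D (RatFunc.X : RatFunc k) = 1 ∧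
    ∃ y : Fin n → RatFunc k,
      (∀ j : Fin n, ∑ i : Fin (n + 1),
          (∑ m : Fin d, RatFunc.C (t ^ (m : ℕ)) * Polynomial.aeval (RatFunc.X : RatFunc k) (b m i) +
            if i = 0 then RatFunc.C (t ^ d) * Polynomial.aeval (RatFunc.X : RatFunc k) r else 0) *
          (⇑D)^[(i : ℕ)] (y j) = 0) ∧
      ∀ c : Fin n → RatFunc k, (∀ j, D (c j) = 0) → ∑ j : Fin n, c j * y j = 0 → ∀ j, c j = 0

/-- `p` is a prime number, and for a root `q` of the irreducible polynomial `P` over `ℤ` the
reductions of `L_q` at all the maximal ideals of `ℤ[q] = ℤ[X] / (P)` above `p` have a full basis of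
rational solutions: `L_t` has one for all the roots `t` of `P` in an algebraic closure of `F_p`. -/
def Good (n : ℕ) {d : ℕ} (b : Fin d → Fin (n + 1) → ℤ[X]) (r : ℤ[X]) (P : ℤ[X]) (p : ℕ) : Prop :=
  ∃ _ : Fact p.Prime, ∀ t : AlgebraicClosure (ZMod p), Polynomial.aeval t P = 0 → Full n b r t

open Classical in
/-- The sum of `log p / p` over the prime numbers `p ≤ Y` for which some reduction of `L_q` at a
prime above `p` does not have a full basis of rational solutions; `q` is a root of `P`. -/
noncomputable def badSum (n : ℕ) {d : ℕ} (b : Fin d → Fin (n + 1) → ℤ[X]) (r : ℤ[X]) (P : ℤ[X])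
    (Y : ℝ) : ℝ :=
  ∑ p ∈ Icc 1 ⌊Y⌋₊ with p.Prime ∧ ¬ Good n b r P p, Real.log p / p

/-- Let `n, d, D ≥ 1`, `lam > 0`, `K` a real number and `lam² θ > 2 d / (n D)`. There is a
constant `C` such that for all operators `L_0, …, L_(d-1)` of order at most `n` over `ℤ[x]`, all
polynomials `r` that are not divisible by any prime `p > N₀`, and all `X ≥ 2`, the following holds.

At most `C X^θ` polynomials `P` of degree `D` over `ℤ`, irreducible, with positive leading coefficient
and coefficients at most `X` in absolute value (the minimal polynomials of the algebraic numbers `q`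
of degree `D`) satisfy `∑ log p / p ≤ (1 - lam) θ log X + K`, where the sum is over the prime
numbers `p ≤ X^θ` such that some reduction, at a prime above `p`, of
`L_q = L_0 + q L_1 + ⋯ + q^(d-1) L_(d-1) + q^d r` does not have a full basis of rational solutions
(`P(q) = 0`). -/
theorem result (n d D : ℕ) (hn : 1 ≤ n) (hd : 1 ≤ d) (hD : 1 ≤ D) (lam θ K : ℝ)
    (hlam : 0 < lam) (hθ : 2 * (d : ℝ) / (n * D) < lam ^ 2 * θ) (N₀ : ℕ) :
    ∃ C : ℝ, ∀ (b : Fin d → Fin (n + 1) → ℤ[X]) (r : ℤ[X]),
      (∀ p : ℕ, p.Prime → N₀ < p → ∃ i : ℕ, ¬ (p : ℤ) ∣ r.coeff i) →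
      ∀ X : ℝ, 2 ≤ X →
        (Set.ncard {P : ℤ[X] | P.natDegree = D ∧ Irreducible P ∧ 0 < P.leadingCoeff ∧
          (∀ i, |(P.coeff i : ℝ)| ≤ X) ∧
          badSum n b r P (X ^ θ) ≤ (1 - lam) * θ * Real.log X + K} : ℝ) ≤ C * X ^ θ := by
  classical
  have hn0 : (0 : ℝ) < n := by exact_mod_cast hn
  have hD0 : (0 : ℝ) < D := by exact_mod_cast hD
  have hθ' : 2 * (d : ℝ) < n * D * lam ^ 2 * θ := by
    rw [div_lt_iff₀ (by positivity)] at hθ
    nlinarith
  obtain ⟨C, hC⟩ := Pool.Agent.Run7.h283.AP.sparseP (P₁ := N₀) (K := K) hn hD hlam hθ'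
  refine ⟨C, fun b r hr X hX => ?_⟩
  have h1 := hC (fun p P => Good n b r P p) ?_ X hX
  · refine le_trans (le_of_eq ?_) h1
    congr 2
    ext P
    simp only [Set.mem_ofPred_eq, Pool.Agent.Run7.h283.AP.Adm, badSum]
    constructor
    · rintro ⟨h1, h2, h3, h4, h5⟩
      exact ⟨⟨⟨h1, h2, h3⟩, h5⟩, h4⟩
    · rintro ⟨⟨⟨h1, h2, h3⟩, h5⟩, h4⟩
      exact ⟨h1, h2, h3, h4, h5⟩
  · intro p hp hpN S hS
    have hchar : CharP (AlgebraicClosure (ZMod p)) p :=
      charP_of_injective_algebraMap
        (algebraMap (ZMod p) (AlgebraicClosure (ZMod p))).injective p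
    refine Pool.Agent.Run7.h283.AP.classes_le p hd b r ?_ _ ?_
    · obtain ⟨i, hi⟩ := hr p hp.out hpN
      intro h0
      apply hi
      have h1 := congrArg (fun P => P.coeff i) h0
      simp only [coeff_map, eq_intCast, coeff_zero] at h1
      exact (CharP.intCast_eq_zero_iff (AlgebraicClosure (ZMod p)) p _).1 h1
    · intro t ht
      rw [mem_biUnion] at ht
      obtain ⟨P, hP, htP⟩ := ht
      obtain ⟨_, hF⟩ := hS P hP
      rw [Pool.Agent.Run7.h283.AP.rts, Multiset.mem_toFinset] at htP
      have h2 := (mem_roots'.1 htP).2
      refine hF t ?_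
      rw [IsRoot.def, eval_map] at h2
      rw [aeval_def]
      exact h2

end Pool.Agent.Results.MP_aa40d3_nt.AlgebraicParameters
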