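import Pool.Agent.Run7.h850.PC.Op

set_option autoImplicit false

open Polynomial Pool.Agent.W432.WB Pool.Agent.W432.HK Pool.Agent.Y227.SS Pool.Agent.Y227.SO
open Pool.Agent.TH571.PCV Pool.Agent.R340.SY Run7.h850.PC

/-!
# Order two, four points with non-integral differences of exponents, arbitrary denominators

For a rational number `q` with denominator `n` let `gam q` be the product of the numbers `-p` for the
primes `p` dividing `n`, divided by `n ^ 2`. Let `L` be an irreducible Fuchsian operator of order two
with arbitrary rational exponents, with exactly four singular points with non-integral differences
`θ i` of the exponents, any number of further singular points with integral differences of exponents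
and arbitrary accessory parameters. Let `s κ` be the sixteen sums of exponents, one exponent for each
singular point (the choice at the points with integral differences is not important modulo one), and
assume that none of them is an integer (no resonance).

We prove an explicit inequality between the denominators of these twenty numbers: if the reductions
of `L` have full bases of rational solutions for almost all primes, then

`∑ gam (s κ) ≥ 4 ∑ gam (θ i) + 4 / 15`,

and in general the proportion of the residue classes modulo a common denominator of the exponents for
which the reductions do not have full bases of solutions is at least `3 / 74` times the difference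
between the right side and the left side. There is no restriction on the denominators, small and even
ones are allowed. (For exponents `1 / 3`-torsion etc. there are operators of this kind with finite
monodromy; the least value of `∑ gam (s κ) - 4 ∑ gam (θ i)` for exponents with all conjugates stable
that we found is `16 / 27`.)

Proof. If the reductions have full bases for infinitely many primes `p` with `a p = -1`, the numbers
`a λ` (`λ` the exponents) are the weights of a stable parabolic bundle of degree zero (a starting
result). In terms of the differences this says that a point of `ℝ⁴` has `l¹`-distance larger than one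
from the integral points of one parity. For such points the quadratic function
`K = 4 ∑ ⟨θ i⟩ - ∑ ⟨s κ⟩`, `⟨x⟩ = {x} (1 - {x})`, which belongs to the root system `D₄`, is at least four
times the distance of the nearest of the twelve numbers `θ i`, `± s κ` from the integers. The mean of
`K` over the conjugates is `(∑ gam (s κ) - 4 ∑ gam (θ i)) / 6`. The mean of the minimum of the distances
is at least `t` minus the sum of the means of the tent functions `max (0, t - ‖x‖)` of the twelve
numbers; for `t = 1 / 36` each of these means is at most `1 / 720`, for all denominators larger than one
(with equality for the denominators `60` and `90`).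
-/

namespace Pool.Agent.Results.MP_aa40d3_nt.FourPointInequality

/-- Let `L = ∑ b k ∂ ^ k` be an operator of order two with integral polynomial coefficients, Fuchsian,
with finite singular points among the distinct algebraic numbers `α j`, `j = 1, …, m`, with the
rational exponents `expo lam phi x l`, `l = 0, 1`, at the `m + 1` points `x` (the finite points
`some j` and infinity, `none`), and irreducible over the algebraic numbers. Let `P i` be four of the
points, such that the differences `diff lam phi x` of the two exponents at `x` are integers for all
the other points (`rest P`) but not for the `P i`. Assume that none of the sixteen sums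
`total lam phi P κ` of the exponents number `κ i` at the points `P i` and of the exponents number `0`
at the other points is an integer. Let `exc lam phi P` be the sum of `gam` over the sixteen sums minus
four times the sum of `gam` over the four differences.

(1) For every common denominator `N` of the exponents there are at least
`3 / 74 * (4 / 15 - exc lam phi P) * φ(N)` residue classes modulo `N`, prime to `N`, such that for all
large primes `p` in these classes the reduction of `L` modulo `p` does not have a full basis of
rational solutions.

(2) Assume that `exc lam phi P < 4 / 15`, or that the denominators of the four differences and of the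
sixteen sums are all at least `121`, or that these denominators have no prime factors below `7` and
none of the four denominators of the differences is a prime number below `277`. Then
`exc lam phi P < 4 / 15`; for all large `X` more than `3 / 148 * (4 / 15 - exc lam phi P) * π(X)` of the
primes `p ≤ X` are such that the reduction of `L` modulo `p` does not have a full basis of rational
solutions (the negation of `FewBad`, up to equality), and this holds for all large primes of some
residue class modulo every common denominator of the exponents. In particular the open implication
of the conjecture holds for `L`. -/
theorem result {m : ℕ} (hm : 1 ≤ m) (b : Fin 3 → ℤ[X]) (α : Fin m → AlgebraicClosure ℚ)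
    (lam : Fin m → Fin 2 → ℚ) (phi : Fin 2 → ℚ) (hF : FuchsianWith b α lam phi)
    (hirr : ¬ Reducible b) (P : Fin 4 → Option (Fin m)) (hP : Function.Injective P)
    (hint : ∀ x ∈ rest P, (diff lam phi x).den = 1) (hθ : ∀ i, (diff lam phi (P i)).den ≠ 1)
    (hs : ∀ κ, (total lam phi P κ).den ≠ 1) :
    (∀ N, CommonDen lam phi N →
      BadPrimes b N (3 / 74 * (4 / 15 - ((exc lam phi P : ℚ) : ℝ)))) ∧
    (exc lam phi P < 4 / 15 ∨
      ((∀ κ, 121 ≤ (total lam phi P κ).den) ∧ ∀ i, 121 ≤ (diff lam phi (P i)).den) ∨
      ((∀ κ, Rough7 (total lam phi P κ)) ∧ (∀ i, Rough7 (diff lam phi (P i))) ∧
        ∀ i, (diff lam phi (P i)).den.Prime → 277 ≤ (diff lam phi (P i)).den) →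
      exc lam phi P < 4 / 15 ∧
      ¬ FewBad b (3 / 148 * (4 / 15 - ((exc lam phi P : ℚ) : ℝ))) ∧
      (∀ N, CommonDen lam phi N → Pool.Agent.W432.HK.BadClass b N) ∧ (Cond b → FullAlg b)) := by
  refine ⟨fun N hN => op_bad hm hF hirr hP hint hθ hs hN, fun h => ?_⟩
  have hE : exc lam phi P < 4 / 15 := by
    rcases h with h | ⟨h1, h2⟩ | ⟨h1, h2, h3⟩
    · exact h
    · exact excess_large h1 h2
    · exact excess_rough h1 hs h2 hθ h3
  have hE' : ((exc lam phi P : ℚ) : ℝ) < 4 / 15 := by
    have : ((exc lam phi P : ℚ) : ℝ) < ((4 / 15 : ℚ) : ℝ) := by exact_mod_cast hE
    norm_num at this
    exact this
  obtain ⟨N, hN⟩ := exists_commonDen lam phi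
  refine ⟨hE, ?_, fun M hM => op_class hm hF hirr hP hint hθ hs hE hM, fun hc => ?_⟩
  · have h1 := (op_bad hm hF hirr hP hint hθ hs hN).dens hN.1 (by linarith)
    have h2 : 3 / 74 * (4 / 15 - ((exc lam phi P : ℚ) : ℝ)) / 2 =
        3 / 148 * (4 / 15 - ((exc lam phi P : ℚ) : ℝ)) := by ring
    rwa [h2] at h1
  · obtain ⟨a, ha, P₀, hP₀⟩ := op_class hm hF hirr hP hint hθ hs hE hN
    obtain ⟨p, hp1, hp2, hp3, hp4⟩ := cond_infinite hc hN.1 ha P₀
    exact absurd hp4 (hP₀ p hp1 hp2 hp3)

end Pool.Agent.Results.MP_aa40d3_nt.FourPointInequality
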