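import Pool.Agent.Run7.h700.PC.OpEps

set_option autoImplicit false

open Finset Polynomial Pool.Agent.W432.WB Pool.Agent.W432.HK Pool.Agent.W432.TC
open Pool.Agent.Y227.SS Pool.Agent.Y227.SO Pool.Agent.R340.SY Pool.Agent.Run7.h700.PC

/-!
# Operators of any order: large primes in the denominators of the exponent differences

Let `L` be any Fuchsian operator (of any order, reducible or not) with rational exponents, any number of
singular points and arbitrary accessory parameters, and let `S` be a set of large prime numbers. An
`S`-number is a rational number such that all prime factors of its denominator are in `S`.
**Grothendieck's conjecture holds for `L` if the differences of the exponents at all singular points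
but one are `S`-numbers and some difference of the exponents at the last point is not an `S`-number**;
here the primes in `S` are larger than an explicit bound which depends on the number `s` of the other
singular points and on the number `K` of the different differences at these points. For example it
holds if the differences of the exponents at all points but one have denominators which are powers of a
prime number `> (12 s + 7) ^ (K + 1)`, and one difference at the last point has an even denominator. It
also holds if the differences at all the points are `S`-numbers, but not the sums of exponents, one for
each point.

For a finite linear group of degree `n` all whose local monodromies but one have orders composed of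
primes `> 2 n + 1`, up to scalars, the theorem of Feit and Thompson gives a normal abelian Hall
subgroup, which contains these local monodromies up to scalars and hence also the last one. So these
operators have infinite monodromy; here we see this on the reductions modulo `p`.

Proof. If the reductions of `L` have full bases of solutions for most primes, then the multiples of the
exponents by all `a` prime to their common denominator `N` are the weights of semistable parabolic
bundles of parabolic degree zero (a starting result). The inequalities for line subbundles for `a` and
`-a` say: for arcs, one for each point, such that the sums of the left and of the right end points are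
strictly between two consecutive integers, at least `n` exponents are outside of the arcs. By the
pigeonhole principle there is an `a₁` below the primes in `S` such that the multiples by `a₁` of all the
differences away from `z` are close to integers; and there is an `a₂` prime to the part of `N` without
primes in `S` such that the corresponding part of a difference at `z`, times `a₂`, has distance
at least `1 / 6` from the integers. For a common `a` the exponents away from `z` are in short arcs, so
those at `z` are in a short arc as well, a contradiction.
-/

namespace Pool.Agent.Results.MP_aa40d3_nt.LargePrimesSeparate

/-- For `m, n ≥ 1` there is an `ε > 0` with the following property. Let `L = ∑ b k ∂ ^ k`, `k ≤ n`, be an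
operator with integral polynomial coefficients, Fuchsian with finite singular points among the distinct
algebraic numbers `α j`, `j < m`, with rational exponents `e x l = expo lam phi x l` at the `m + 1`
points `x` (`some j` is `α j` and `none` is infinity). Nothing is assumed on irreducibility or on
the accessory parameters. Let `S` be a set of primes, let `κ x` be an index for every point `x` and let
`V` be a finite set of rational numbers with denominators composed of primes in `S`. Let `Z` be a set of
at most one point such that at all the points `x` which are not in `Z` every difference
`e x l - e x (κ x)` is an integer or congruent to an element of `V` modulo the integers (`DiffIn`), let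
`s` be the number of the points outside `Z` with a nonintegral difference, and let the primes in `S` be
greater than `(12 s + 7) ^ (#V + 1)`. Assume that some difference `e z l - e z l'`, `z ∈ Z`, has a
denominator with a prime factor which is not in `S`; or that `Z` is empty and the denominator of the sum
of the `e x (κ x)` over all points has a prime factor which is not in `S`.

Then `Excluded`: for every common denominator `N` of the exponents there is a set of at least `ε φ(N)`
residue classes modulo `N` such that the reduction of `L` does not have a full basis of rational
solutions for all large primes `p` in these classes, and the open implication of the conjecture holds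
for `L`. -/
theorem result {m n : ℕ} (hm : 1 ≤ m) (hn : 1 ≤ n) :
    ∃ ε : ℝ, 0 < ε ∧ ∀ (b : Fin (n + 1) → ℤ[X]) (α : Fin m → AlgebraicClosure ℚ)
      (lam : Fin m → Fin n → ℚ) (phi : Fin n → ℚ), FuchsianWith b α lam phi →
    ∀ (S : Set ℕ) (κ : Option (Fin m) → Fin n) (V : Finset ℚ), (∀ v ∈ V, DenIn S v) →
    ∀ Z : Finset (Option (Fin m)), Z.card ≤ 1 → (∀ x, x ∉ Z → DiffIn lam phi κ V x) →
    (∀ p ∈ S, (12 * (spread lam phi κ \ Z).card + 7) ^ (V.card + 1) < p) →
    ((∃ z ∈ Z, ∃ l l', ¬ DenIn S (expo lam phi z l - expo lam phi z l')) ∨
      (Z = ∅ ∧ ¬ DenIn S (∑ x, expo lam phi x (κ x)))) →
    Excluded b lam phi ε := by
  classical
  obtain ⟨ε, hε, hor⟩ := op_or hm hn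
  refine ⟨ε, hε, fun b α lam phi hF S κ V hV Z hZ hx hS hz => ?_⟩
  rcases hor b α lam phi hF with h | ⟨N, hN, hc⟩
  · exact h
  exfalso
  rcases hz with ⟨z, hzZ, l, l', hl⟩ | ⟨rfl, hz⟩
  · have hZz : Z = {z} := by
      refine (eq_singleton_iff_unique_mem.2 ⟨hzZ, fun y hy => ?_⟩)
      exact card_le_one.1 hZ y hy z hzZ
    subst hZz
    refine hl (abs_one hN.1 (expo_den hN.2.1 hN.2.2) hc S z κ V hV (fun x hxz => hx x (by
      simpa using hxz)) ?_ l l')
    rwa [sdiff_singleton_eq_erase] at hS
  · refine hz (abs_sum hN.1 (expo_den hN.2.1 hN.2.2) hn hc S κ V hV (fun x => hx x (by simp)) ?_)
    rwa [sdiff_empty] at hS

end Pool.Agent.Results.MP_aa40d3_nt.LargePrimesSeparate
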