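import Mathlib
import Pool.Agent.Run7.h143.PC.V1

set_option autoImplicit false

/-!
The primes with nonzero `p`-curvature have positive density, for systems on the thrice punctured line whose generic
radius of convergence is one.
-/

namespace Pool.Agent.Results.MP_aa40d3_nt.PositiveDensity

open Pool.Agent.N780.PCurv Pool.Agent.Run7.h143.PC

/-- **Positive density of the primes with nonzero `p`-curvature on the thrice punctured line.**
The systems are `(x (1 - x))^k Y' = A Y` with an `n × n` matrix `A` of polynomials over a ring `R` which is free of
rank `d` over the integers (for instance the integers of a number field of degree `d`), the base point is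
`c = (1 - i √3) / 2`, and `W` is any thin set of primes (no condition is imposed at the primes in `W`; `W = {2, 3}`
is allowed). The bad primes up to `x` are the primes `p ≤ x` outside `W` at which the `p`-curvature is not zero.

There is `δ > 0` which depends only on `n` and `d` such that: for all `R`, `k` and degrees `a` there is `K` such that
for every such system of degree at most `a` and height at most `H` which has a solution that is not rational, and for
every `x ≥ K (H + 1)`: if the generic radius of convergence is one at the bad primes up to `x`, then there are at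
least `δ x / log x` bad primes up to `x`. -/
theorem result :
    ∀ n d : ℕ, ∃ δ : ℝ, 0 < δ ∧
      ∀ (R : Type) [CommRing R] (b : Module.Basis (Fin d) ℤ R) (k a : ℕ), ∃ K : ℕ,
      ∀ W : Set ℕ, Thin W →
      ∀ (ρ : R →+* ℂ) (H : ℕ) (A : Matrix (Fin n) (Fin n) (Polynomial R)),
        (∀ i j, (A i j).natDegree ≤ a) →
        (∀ i j l e, |b.repr ((A i j).coeff l) e| ≤ (H : ℤ)) →
        HasIrrationalSolution ρ ⟨1 / 2, -(Real.sqrt 3 / 2)⟩ (Polynomial.X * (1 - Polynomial.X)) k A →
        ∀ x : ℕ, K * (H + 1) ≤ x →
        (∀ p ∈ badPrimes ((Polynomial.X * (1 - Polynomial.X)) ^ k) A (outside W) x,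
          RadiusOne ((Polynomial.X * (1 - Polynomial.X)) ^ k) A p) →
        δ * (x / Real.log x) ≤
          (badPrimes ((Polynomial.X * (1 - Polynomial.X)) ^ k) A (outside W) x).ncard := by
  intro n d
  obtain ⟨δ, hδ, h⟩ := lowerV1 n d
  refine ⟨δ, hδ, fun R _ b k a => ?_⟩
  obtain ⟨K, hK⟩ := h R b k a
  refine ⟨K, fun W hW ρ H A hA hH hy x hx hR => ?_⟩
  obtain ⟨y, hy1, hy2⟩ := hy
  exact hK W hW.1 hW.2 ρ H A hA hH y hy1 hy2 x hx hR

end Pool.Agent.Results.MP_aa40d3_nt.PositiveDensity
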